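import Pool.Agent.H63.CG.Ext

/-!
# Extensions of `F_p((t))` by itself as contraction groups are nilpotent

Let `(G, α)` be a torsion contraction group with a closed normal `α`-invariant subgroup `N` such
that `(N, α)` and `(G ⧸ N, α)` are both isomorphic, as contraction groups, to
`(F_p((t)), f ↦ t f)`.  Then `N` is central; so `G` is nilpotent, of class at most `2`.
-/

open Topology Filter HahnSeries

set_option linter.unusedVariables false

namespace Pool.Agent.Results.MP_2025a9_al.SelfExtNilpotent

open Pool.Agent.H63.CG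

/-- **Theorem.** Let `(G, α)` be a torsion contraction group (`G` a Hausdorff locally compact
group, `α` a topological automorphism with `α ^ n x → 1` for all `x`) and `N` a closed normal
subgroup with `α(N) = N`, such that `(N, α)` and `(G ⧸ N, α)` are isomorphic, as contraction
groups, to `F_p((t))` with multiplication by `t` (via `e` and `f`).  Then `N` is central and `G`
is nilpotent of class at most `2`. -/
theorem result (p : ℕ) [Fact p.Prime] {G : Type*} [Group G] [TopologicalSpace G]
    [IsTopologicalGroup G] [T2Space G] [LocallyCompactSpace G] (htor : ∀ x : G, IsOfFinOrder x)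
    (α : G ≃ₜ* G) (hα : ∀ x : G, Tendsto (fun n : ℕ => (⇑α)^[n] x) atTop (𝓝 1))
    (N : Subgroup G) [N.Normal] (hNc : IsClosed (N : Set G)) (hαN : α '' (N : Set G) = N)
    (e : N ≃ₜ* Multiplicative (LaurentSeries (ZMod p)))
    (he : ∀ (n : N) (h : α n ∈ N), (e ⟨α n, h⟩).toAdd = single (1 : ℤ) (1 : ZMod p) * (e n).toAdd)
    (f : G ⧸ N ≃ₜ* Multiplicative (LaurentSeries (ZMod p)))
    (hf : ∀ g : G, (f (α g : G)).toAdd = single (1 : ℤ) (1 : ZMod p) * (f (g : G ⧸ N)).toAdd) :
    N ≤ Subgroup.center G ∧ Group.IsNilpotent G ∧ Group.nilpotencyClass G ≤ 2 := by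
  have hA := gam_act α hαN e he f hf
  -- compactness
  have hcomp : ∃ n, IsCompact (UU p n : Set (KK p)) := by
    have h1 : LocallyCompactSpace N := hNc.isClosedEmbedding_subtypeVal.locallyCompactSpace
    have h2 : LocallyCompactSpace (Multiplicative (KK p)) :=
      e.symm.toHomeomorph.isClosedEmbedding.locallyCompactSpace
    have h3 : LocallyCompactSpace (KK p) := h2
    obtain ⟨s, hs, hs0⟩ := exists_compact_mem_nhds (0 : KK p)
    obtain ⟨n, hn⟩ := (nhds_iff s).1 hs0
    exact ⟨n, hs.of_isClosed_subset ((UU p n).isClosed_of_isOpen (UU_isOpen n)) hn⟩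
  have hF := filt hcomp
  have hT2 : T2Space (KK p) := inferInstance
  have htriv := hA.trivial hF
  have hcen : N ≤ Subgroup.center G := by
    intro n hn
    rw [Subgroup.mem_center_iff]
    intro g
    have h := htriv (f (g : G ⧸ N)).toAdd (e ⟨n, hn⟩).toAdd
    rw [gam_apply] at h
    have h' := Multiplicative.toAdd.injective h
    simp only [ofAdd_toAdd, ContinuousMulEquiv.symm_apply_apply] at h'
    have h'' := congrArg Subtype.val (e.injective h')
    rw [conjQ_mk] at h''
    simp only at h''
    rw [mul_inv_eq_iff_eq_mul] at h''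
    exact h''
  have hker : ((f : G ⧸ N ≃* Multiplicative (KK p)).toMonoidHom.comp
      (QuotientGroup.mk' N)).ker ≤ Subgroup.center G := by
    intro g hg
    apply hcen
    rw [MonoidHom.mem_ker, MonoidHom.comp_apply] at hg
    have h1 : (QuotientGroup.mk' N) g = 1 := by
      apply (f : G ⧸ N ≃* Multiplicative (KK p)).injective
      rw [map_one]
      exact hg
    simpa using h1
  have hnil : Group.IsNilpotent G := Subgroup.isNilpotent_of_ker_le_center _ hker
  refine ⟨hcen, hnil, ?_⟩
  have h1 := Group.nilpotencyClass_le_of_ker_le_center _ hker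
  have h2 : Group.nilpotencyClass (Multiplicative (KK p)) ≤ 1 := CommGroup.nilpotencyClass_le_one
  omega

end Pool.Agent.Results.MP_2025a9_al.SelfExtNilpotent
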